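import Pool.Agent.Helper26.KD.StT

/-! # Project CB (MP_65faa7), block T0, module ExpC: the expansion of `w - F * w` for the truncated weight -/

set_option autoImplicit false

open scoped BigOperators ENNReal Topology
open Pool.LE Pool.NL Filter

namespace Pool.KD

namespace ExpCM

theorem symF_neg {d : ℕ} {F : Zd d → ℝ} (h : SymF F) (y : Zd d) : F (-y) = F y := by
  have h1 := h 1 (fun _ => -1) y
  have h2 : sgp (1 : Equiv.Perm (Fin d)) (fun _ => -1) y = -y := by
    funext i
    simp [sgp]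
  rw [h2] at h1
  exact h1

theorem dt_neg {d : ℕ} (x y : Zd d) : dt x (-y) = -dt x y := by
  simp [dt]

theorem pow_le_cube {t : ℝ} (ht : 0 ≤ t) : 1 ≤ (1 + t) ^ 3 ∧ t ≤ (1 + t) ^ 3 ∧ t ^ 2 ≤ (1 + t) ^ 3 ∧
    t ^ 3 ≤ (1 + t) ^ 3 := by
  have e : (1 + t) ^ 3 = 1 + 3 * t + 3 * t ^ 2 + t ^ 3 := by ring
  have h2 : 0 ≤ t ^ 2 := by positivity
  have h3 : 0 ≤ t ^ 3 := by positivity
  rw [e]
  refine ⟨?_, ?_, ?_, ?_⟩ <;> linarith

/-- summability from the third moment -/
theorem summ_of {d : ℕ} {F : Zd d → ℝ} {K : ℝ} (hF : M3 F K) (g : Zd d → ℝ) (c : ℝ)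
    (h : ∀ y, |g y| ≤ c * (1 + nn y) ^ 3) : Summable (fun y => F y * g y) := by
  refine Summable.of_norm_bounded (g := fun y => c * ((1 + nn y) ^ 3 * |F y|)) (hF.summ.mul_left c) fun y => ?_
  rw [Real.norm_eq_abs, abs_mul]
  calc |F y| * |g y| ≤ |F y| * (c * (1 + nn y) ^ 3) := mul_le_mul_of_nonneg_left (h y) (abs_nonneg _)
    _ = c * ((1 + nn y) ^ 3 * |F y|) := by ring

end ExpCM

open ExpCM

/-- module ExpC -/
theorem hExpC (hW : StW) (hTayC : StTayC) (hIso : StIso) : StExpC := by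
  intro s M hs hM
  obtain ⟨C, hC1, hC⟩ := hTayC s M hs hM
  refine ⟨C, hC1, ?_⟩
  intro d F K m hsd hSym hF hF1 hM2 hm x
  obtain ⟨a, b, c, hR, hb⟩ := hC d m x hsd hm
  obtain ⟨hq, hdt, -, -, -, -, -, -⟩ := hW d m hm
  have hd : 0 < d := by
    rcases Nat.eq_zero_or_pos d with h | h
    · rw [h] at hsd
      norm_num at hsd
      linarith
    · exact h
  have hdr : (0 : ℝ) < d := by exact_mod_cast hd
  have hm0 : (0 : ℝ) < m := by linarith
  have nn0 : ∀ y : Zd d, 0 ≤ nn y := fun y => (hq y).2.1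
  have hnsq : ∀ y : Zd d, nn y ^ 2 = LE.sq y := fun y => (hq y).2.2.1
  set w : Zd d → ℝ := fun y => wc s m (M * m) y with hw
  set R : Zd d → ℝ := fun y => w (x - y) - w x - a * dt x y - b * dt x y ^ 2 - c * LE.sq y with hRd
  have hRle : ∀ y, |R y| ≤ C * (nn y / m) ^ 3 := hR
  -- summability
  have s0 : Summable F := by
    have := summ_of hF (fun _ => 1) 1 (fun y => by
      rw [abs_one, one_mul]
      exact (pow_le_cube (nn0 y)).1)
    simpa using this
  have s1 : Summable (fun y => F y * dt x y) := summ_of hF _ (nn x) fun y =>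
    ((hdt x y).2.1).trans (mul_le_mul_of_nonneg_left (pow_le_cube (nn0 y)).2.1 (nn0 x))
  have s2 : Summable (fun y => F y * dt x y ^ 2) := summ_of hF _ (nn x ^ 2) fun y => by
    rw [abs_pow]
    calc |dt x y| ^ 2 ≤ (nn x * nn y) ^ 2 := pow_le_pow_left₀ (abs_nonneg _) (hdt x y).2.1 2
      _ = nn x ^ 2 * nn y ^ 2 := by ring
      _ ≤ nn x ^ 2 * (1 + nn y) ^ 3 := mul_le_mul_of_nonneg_left (pow_le_cube (nn0 y)).2.2.1 (by positivity)
  have s3 : Summable (fun y => F y * LE.sq y) := summ_of hF _ 1 fun y => by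
    rw [← hnsq y, abs_of_nonneg (by positivity), one_mul]
    exact (pow_le_cube (nn0 y)).2.2.1
  have hR3 : ∀ y, |R y| ≤ (C / m ^ 3) * (1 + nn y) ^ 3 := fun y => by
    calc |R y| ≤ C * (nn y / m) ^ 3 := hRle y
      _ = (C / m ^ 3) * nn y ^ 3 := by rw [div_pow]; ring
      _ ≤ (C / m ^ 3) * (1 + nn y) ^ 3 := mul_le_mul_of_nonneg_left (pow_le_cube (nn0 y)).2.2.2 (by positivity)
  have s4 : Summable (fun y => F y * R y) := summ_of hF _ (C / m ^ 3) hR3
  -- the odd term
  have h1 : ∑' y, F y * dt x y = 0 := by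
    have e : ∑' y, F y * dt x y = -∑' y, F y * dt x y := by
      rw [← tsum_neg, ← (Equiv.neg (Zd d)).tsum_eq (fun y => F y * dt x y)]
      refine tsum_congr fun y => ?_
      simp only [Equiv.neg_apply]
      rw [symF_neg hSym, dt_neg]
      ring
    linarith
  -- the quadratic term
  have hQ : SumQ F := by
    have := summ_of hF (fun y => Qw y) 4 (fun y => by
      unfold Qw
      have h2 := pow_le_cube (nn0 y)
      rw [← hnsq y, abs_of_nonneg (by positivity)]
      nlinarith [h2.1, h2.2.2.1])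
    have h2 := this.norm
    unfold SumQ
    refine h2.congr fun y => ?_
    have h3 : 0 ≤ Qw y := by
      unfold Qw
      rw [← hnsq y]
      positivity
    rw [norm_mul, Real.norm_eq_abs, Real.norm_eq_abs, abs_of_nonneg h3, mul_comm]
  have h2 : ∑' y, F y * dt x y ^ 2 = LE.sq x / d * ∑' y, LE.sq y * F y := by
    have := (hIso d F hd hQ hSym (fun i => (x i : ℝ))).2
    exact this
  have h3 : ∑' y, F y * LE.sq y = ∑' y, LE.sq y * F y := tsum_congr fun y => mul_comm _ _
  -- the expansion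
  have hexp : ∑' y, F y * w (x - y) = w x + (b * (LE.sq x / d) + c) * (∑' y, LE.sq y * F y) +
      ∑' y, F y * R y := by
    have e : (fun y => F y * w (x - y)) = fun y => w x * F y + a * (F y * dt x y) + b * (F y * dt x y ^ 2) +
        c * (F y * LE.sq y) + F y * R y := by
      funext y
      simp only [hRd]
      ring
    rw [e]
    have t0 : Summable fun y => w x * F y := s0.mul_left _
    have t1 : Summable fun y => a * (F y * dt x y) := s1.mul_left _
    have t2 : Summable fun y => b * (F y * dt x y ^ 2) := s2.mul_left _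
    have t3 : Summable fun y => c * (F y * LE.sq y) := s3.mul_left _
    rw [(((t0.add t1).add t2).add t3).tsum_add s4, ((t0.add t1).add t2).tsum_add t3, (t0.add t1).tsum_add t2,
      t0.tsum_add t1, tsum_mul_left, tsum_mul_left, tsum_mul_left, tsum_mul_left, hF1, h1, h2, h3]
    ring
  -- the error
  have herr : |∑' y, F y * R y| ≤ C * K / m ^ 3 := by
    have h4 : |∑' y, F y * R y| ≤ ∑' y, |F y * R y| := by
      have := norm_tsum_le_tsum_norm s4.norm
      simpa [Real.norm_eq_abs] using this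
    have h5 : ∑' y, |F y * R y| ≤ ∑' y, (C / m ^ 3) * ((1 + nn y) ^ 3 * |F y|) := by
      refine Summable.tsum_le_tsum (fun y => ?_) s4.abs (hF.summ.mul_left _)
      rw [abs_mul]
      calc |F y| * |R y| ≤ |F y| * ((C / m ^ 3) * (1 + nn y) ^ 3) :=
            mul_le_mul_of_nonneg_left (hR3 y) (abs_nonneg _)
        _ = (C / m ^ 3) * ((1 + nn y) ^ 3 * |F y|) := by ring
    rw [tsum_mul_left] at h5
    have h6 : (C / m ^ 3) * ∑' y, (1 + nn y) ^ 3 * |F y| ≤ (C / m ^ 3) * K :=
      mul_le_mul_of_nonneg_left hF.le (by positivity)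
    calc |∑' y, F y * R y| ≤ (C / m ^ 3) * K := h4.trans (h5.trans h6)
      _ = C * K / m ^ 3 := by ring
  -- conclusion
  set M2 : ℝ := ∑' y, LE.sq y * F y with hM2d
  have h7 : -(b * (LE.sq x / d) + c) * M2 ≤
      M2 / (2 * d) / m ^ 2 * (fs s m x + 8 * d / M ^ 2 * ww s m x) := by
    have h8 : M2 / (2 * d) / m ^ 2 * (-(2 * b * LE.sq x + 2 * d * c) * m ^ 2) ≤
        M2 / (2 * d) / m ^ 2 * (fs s m x + 8 * d / M ^ 2 * ww s m x) :=
      mul_le_mul_of_nonneg_left hb (by positivity)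
    refine le_trans (le_of_eq ?_) h8
    field_simp
  have h9 := (abs_le.1 herr).1
  show w x - ∑' y, F y * w (x - y) ≤ _
  rw [hexp]
  linarith

end Pool.KD
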